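import Pool.Agent.H34.CGS.Stmts

/-!
# Board `cgs`, row KEY (helper52): the approximant of the conjugate variable of `x + s S`
-/

set_option autoImplicit false

noncomputable section

namespace Pool.CGS

open Pool.CGR

theorem key_thm (hEXP : EXPStmt) (hMXQ : MXQStmt) (hTWO : TWOStmt) (hPAL : PALStmt) : KEYStmt := by
  intro m A _ τ hτ x S hx hS i R δ hδ hR s P
  obtain ⟨hM1, hM2, -⟩ := hMXQ m A τ x S s P
  obtain ⟨W', hW1, hW2⟩ := hEXP m A τ hτ x S hS (mixp s P)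
  obtain ⟨hCS, -, h3, h4, -⟩ := hTWO A τ hτ
  obtain ⟨-, -, -, -, -, h6⟩ := hPAL (Fin m) A τ x
  have e1 : dp τ (sh x S s) i P = dp τ x i W' := by rw [hM2 i, hW2 i]
  have e2 : τ (pe x R * pe (sh x S s) P) = τ (pe x R * pe x W') := by
    rw [hτ.comm, hM1, hW1 R, hτ.comm]
  have e3 : n2 τ (pe x W') ≤ n2 τ (pe (sh x S s) P) := by
    obtain ⟨R', hR'⟩ := h6 hx W'
    have a1 := h4 (pe x W')
    rw [← hR', ← hW1 R', ← hM1] at a1
    have a2 : n2 τ (pe x W') ^ 2 ≤ n2 τ (pe (sh x S s) P) * n2 τ (pe x W') := by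
      have a3 := hCS (pe (sh x S s) P) (pe x R')
      rw [a1, hR', (h3 _).2.2.1, Complex.norm_real] at a3
      exact le_trans (le_abs_self _) a3
    have a4 : 0 ≤ n2 τ (pe x W') := (h3 _).1
    have a5 : 0 ≤ n2 τ (pe (sh x S s) P) := (h3 _).1
    rcases a4.eq_or_lt with h0 | h0
    · rw [← h0]
      exact a5
    · nlinarith
  rw [e1, e2]
  exact le_trans (hR W') (mul_le_mul_of_nonneg_left e3 hδ)

end Pool.CGS
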